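import Mathlib

/-!
# Infinitely many internally self-dual regular polyhedra of type {p,p}, p odd, p ≥ 5
-/

namespace Pool.Agent.Results.MP_7f6698_co.InfiniteFamily

/-- The triple `ρ` makes `G` a string C-group of rank 3, i.e. the automorphism group of an abstract
regular polyhedron with its distinguished generators. -/
structure IsStringCGroup {G : Type} [Group G] (ρ : Fin 3 → G) : Prop where
  generate : Subgroup.closure (Set.range ρ) = ⊤
  involution : ∀ i, orderOf (ρ i) = 2
  commute : (ρ 0 * ρ 2) ^ 2 = 1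
  intersection : Subgroup.closure {ρ 0, ρ 1} ⊓ Subgroup.closure {ρ 1, ρ 2} =
    Subgroup.closure {ρ 1}

/-- The polyhedron has type `{p,q}`. -/
def HasType {G : Type} [Group G] (ρ : Fin 3 → G) (p q : ℕ) : Prop :=
  orderOf (ρ 0 * ρ 1) = p ∧ orderOf (ρ 1 * ρ 2) = q

/-- The polyhedron is internally self-dual. -/
def InternallySelfDual {G : Type} [Group G] (ρ : Fin 3 → G) : Prop :=
  ∃ g : G, ∀ i : Fin 3, g⁻¹ * ρ i * g = ρ (Fin.rev i)

/-- The two polyhedra are isomorphic. -/
def Isomorphic {G H : Type} [Group G] [Group H] (ρ : Fin 3 → G) (σ : Fin 3 → H) : Prop :=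
  ∃ e : G ≃* H, ∀ i, e (ρ i) = σ i

/-- An abstract regular polyhedron, given by its automorphism group with the distinguished
generators. -/
structure RegularPolyhedron where
  /-- the automorphism group -/
  G : Type
  [group : Group G]
  /-- the distinguished generators -/
  ρ : Fin 3 → G
  isStringCGroup : IsStringCGroup ρ

attribute [instance] RegularPolyhedron.group

/-! ### The permutations -/

variable {p m : ℕ}

/-- rotation of the coordinates -/
def R (m : ℕ) (j : ZMod p) : Equiv.Perm (ZMod p → ZMod m) where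
  toFun x := fun c => x (c - j)
  invFun x := fun c => x (c + j)
  left_inv := by intro x; funext c; simp
  right_inv := by intro x; funext c; simp

/-- reflection of the coordinates with a sign -/
def S (m : ℕ) (j : ZMod p) : Equiv.Perm (ZMod p → ZMod m) :=
  Function.Involutive.toPerm (fun x => fun c => - x (j - c - 2)) (by
    intro x
    funext c
    simp only [neg_neg]
    congr 1
    ring)

/-- the involution `b_i` -/
def b (m : ℕ) (i : ZMod p) : Equiv.Perm (ZMod p → ZMod m) :=
  Function.Involutive.toPerm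
    (fun x => fun c => if c = i then 1 - x c else if c = i - 2 then -1 - x c else x c) (by
    intro x
    funext c
    simp only
    split_ifs <;> ring)

lemma R_apply (j : ZMod p) (x : ZMod p → ZMod m) (c : ZMod p) : R m j x c = x (c - j) := rfl

lemma S_apply (j : ZMod p) (x : ZMod p → ZMod m) (c : ZMod p) : S m j x c = - x (j - c - 2) := rfl

lemma b_apply (i : ZMod p) (x : ZMod p → ZMod m) (c : ZMod p) :
    b m i x c = if c = i then 1 - x c else if c = i - 2 then -1 - x c else x c := rfl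

lemma R_mul_R (i j : ZMod p) : R m i * R m j = R m (i + j) := by
  ext x c
  rw [Equiv.Perm.mul_apply, R_apply, R_apply, R_apply]
  congr 1
  ring

lemma R_mul_S (i j : ZMod p) : R m i * S m j = S m (i + j) := by
  ext x c
  rw [Equiv.Perm.mul_apply, R_apply, S_apply, S_apply]
  congr 2
  ring

lemma S_mul_R (i j : ZMod p) : S m j * R m i = S m (j - i) := by
  ext x c
  rw [Equiv.Perm.mul_apply, S_apply, R_apply, S_apply]
  congr 2
  ring

lemma S_mul_S (i j : ZMod p) : S m i * S m j = R m (i - j) := by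
  ext x c
  rw [Equiv.Perm.mul_apply, S_apply, S_apply, R_apply, neg_neg]
  congr 1
  ring

lemma R_zero : R m (0 : ZMod p) = 1 := by
  ext x c
  rw [R_apply, Equiv.Perm.one_apply, sub_zero]

lemma S_sq (j : ZMod p) : S m j * S m j = 1 := by
  rw [S_mul_S, sub_self, R_zero]

lemma b_sq (i : ZMod p) : b m i * b m i = 1 := by
  ext x c
  rw [Equiv.Perm.mul_apply, b_apply, b_apply, Equiv.Perm.one_apply]
  split_ifs <;> ring

section
variable (hp : 5 ≤ p)
include hp

lemma small_ne (a : ℕ) (h0 : 0 < a) (h4 : a ≤ 4) : (a : ZMod p) ≠ 0 := by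
  intro h
  rw [ZMod.natCast_eq_zero_iff] at h
  have := Nat.le_of_dvd h0 h
  omega

lemma one_ne : (1 : ZMod p) ≠ 0 := by
  have := small_ne hp 1 (by norm_num) (by norm_num)
  exact_mod_cast this

lemma two_ne : (2 : ZMod p) ≠ 0 := by
  have := small_ne hp 2 (by norm_num) (by norm_num)
  exact_mod_cast this

lemma three_ne : (3 : ZMod p) ≠ 0 := by
  have := small_ne hp 3 (by norm_num) (by norm_num)
  exact_mod_cast this

lemma four_ne : (4 : ZMod p) ≠ 0 := by
  have := small_ne hp 4 (by norm_num) (by norm_num)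
  exact_mod_cast this

lemma S_conj_b (i j : ZMod p) : S m j * b m i * S m j = b m (j - i) := by
  ext x c
  rw [Equiv.Perm.mul_apply, Equiv.Perm.mul_apply, S_apply, b_apply, b_apply, S_apply]
  have e : j - (j - c - 2) - 2 = c := by ring
  rw [e]
  by_cases h1 : c = j - i
  · have h2 : ¬ (j - c - 2 = i) := by
      intro h
      apply two_ne hp
      rw [h1] at h
      have : (2 : ZMod p) = i - (j - (j - i) - 2) := by ring
      rw [this, h]; ring
    have h3 : j - c - 2 = i - 2 := by rw [h1]; ring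
    rw [if_neg h2, if_pos h3, if_pos h1]
    ring
  · have h3 : ¬ (j - c - 2 = i - 2) := by
      intro h
      apply h1
      have : c = j - (j - c - 2) - 2 := by ring
      rw [this, h]; ring
    rw [if_neg h1]
    by_cases h4 : c = j - i - 2
    · have h5 : j - c - 2 = i := by rw [h4]; ring
      rw [if_pos h5, if_pos h4]
      ring
    · have h5 : ¬ (j - c - 2 = i) := by
        intro h
        apply h4
        have : c = j - (j - c - 2) - 2 := by ring
        rw [this, h]
      rw [if_neg h5, if_neg h3, if_neg h4]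
      ring

lemma b_comm : b m (0 : ZMod p) * b m 1 = b m 1 * b m 0 := by
  ext x c
  simp only [Equiv.Perm.mul_apply, b_apply]
  have h1 := one_ne hp
  have h2 := two_ne hp
  have h3 := three_ne hp
  by_cases c0 : c = 0
  · have n1 : ¬ (c = 1) := by rw [c0]; exact fun h => h1 h.symm
    have n2 : ¬ (c = 1 - 2) := by
      rw [c0]; intro h; apply h1
      have : (1 : ZMod p) = 2 - (1 - (1 - 2)) + (1 - (1-2)) - 1 := by ring
      have h' : (1 : ZMod p) = -(1 - 2) := by ring
      rw [h', ← h]; ring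
    simp only [c0, if_true]
    rw [c0] at n1 n2
    rw [if_neg n1, if_neg n2]
    rw [if_neg n1, if_neg n2]
  · by_cases c2 : c = 0 - 2
    · have n1 : ¬ (c = 1) := by
        rw [c2]; intro h; apply h3
        have : (3 : ZMod p) = 1 - (0 - 2) := by ring
        rw [this, h]; ring
      have n2 : ¬ (c = 1 - 2) := by
        rw [c2]; intro h; apply h1
        have : (1 : ZMod p) = (1 - 2) - (0 - 2) := by ring
        rw [this, h]; ring
      simp only [if_neg c0, if_pos c2, if_neg n1, if_neg n2]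
    · simp only [if_neg c0, if_neg c2]

end

/-! ### Passing to the generated subgroup -/

/-- generators as elements of the generated subgroup -/
def gen {H : Type} [Group H] (r : Fin 3 → H) (i : Fin 3) : Subgroup.closure (Set.range r) :=
  ⟨r i, Subgroup.subset_closure ⟨i, rfl⟩⟩

lemma isStringC_of {H : Type} [Group H] (r : Fin 3 → H) (h2 : ∀ i, orderOf (r i) = 2)
    (hc : (r 0 * r 2) ^ 2 = 1)
    (hint : ∀ x, x ∈ Subgroup.closure {r 0, r 1} → x ∈ Subgroup.closure {r 1, r 2} →
      x ∈ Subgroup.closure {r 1}) : IsStringCGroup (gen r) where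
  generate := by
    have h : Set.range (gen r) = ((↑) : Subgroup.closure (Set.range r) → H) ⁻¹' (Set.range r) := by
      ext x
      constructor
      · rintro ⟨i, rfl⟩; exact ⟨i, rfl⟩
      · rintro ⟨i, hi⟩; exact ⟨i, Subtype.ext hi⟩
    rw [h]
    exact Subgroup.closure_closure_coe_preimage
  involution := by
    intro i
    rw [← h2 i]
    exact (Subgroup.orderOf_coe (gen r i)).symm
  commute := by
    apply Subtype.ext
    exact hc
  intersection := by
    apply le_antisymm
    · rintro x ⟨hx1, hx2⟩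
      have key : ∀ i j : Fin 3, x ∈ Subgroup.closure {gen r i, gen r j} →
          (x : H) ∈ Subgroup.closure {r i, r j} := by
        intro i j hx
        have h3 : (x : H) ∈ (Subgroup.closure {gen r i, gen r j}).map
            (Subgroup.closure (Set.range r)).subtype := ⟨x, hx, rfl⟩
        rw [MonoidHom.map_closure] at h3
        have h4 : (Subgroup.closure (Set.range r)).subtype '' {gen r i, gen r j} = {r i, r j} := by
          rw [Set.image_pair]; rfl
        rwa [h4] at h3
      have h3 := hint x (key 0 1 hx1) (key 1 2 hx2)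
      rw [Subgroup.mem_closure_singleton] at h3 ⊢
      obtain ⟨n, hn⟩ := h3
      exact ⟨n, Subtype.ext hn⟩
    · rw [Subgroup.closure_le, Set.singleton_subset_iff]
      exact ⟨Subgroup.subset_closure (by simp), Subgroup.subset_closure (by simp)⟩

/-! ### The string C-group -/

section
variable (p m : ℕ)

/-- the generating triple -/
def r : Fin 3 → Equiv.Perm (ZMod p → ZMod m) :=
  ![S m 1, S m 0, b m 0 * S m 1 * b m 0]

lemma r0 : r p m 0 = S m 1 := rfl
lemma r1 : r p m 1 = S m 0 := rfl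
lemma r2 : r p m 2 = b m 0 * S m 1 * b m 0 := rfl

end

section
variable (hp : 5 ≤ p) (hm : 3 ≤ m)

include hm in
lemma two_ne_m : (2 : ZMod m) ≠ 0 := by
  intro h
  have h' : ((2 : ℕ) : ZMod m) = 0 := by exact_mod_cast h
  rw [ZMod.natCast_eq_zero_iff] at h'
  have := Nat.le_of_dvd (by norm_num) h'
  omega

include hm in
lemma one_ne_m : (1 : ZMod m) ≠ 0 := by
  intro h
  apply two_ne_m hm
  have : (2 : ZMod m) = 1 + 1 := by norm_num
  rw [this, h, add_zero]

include hm in
lemma S_ne_one (j : ZMod p) : S m j ≠ 1 := by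
  intro h
  have h1 := congrFun (congrArg (fun f : Equiv.Perm (ZMod p → ZMod m) => f (fun _ => 1)) h) 0
  have h2 : -(1 : ZMod m) = 1 := h1
  apply two_ne_m hm
  have : (2 : ZMod m) = 1 - (-1) := by ring
  rw [this, h2, sub_self]

lemma conj_order (g x : Equiv.Perm (ZMod p → ZMod m)) (hg : g * g = 1) :
    orderOf (g * x * g) = orderOf x := by
  have h : g⁻¹ = g := inv_eq_of_mul_eq_one_left hg
  have h1 := MulEquiv.orderOf_eq (MulAut.conj g) x
  rw [MulAut.conj_apply, h] at h1
  exact h1

include hm in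
lemma order_S (j : ZMod p) : orderOf (S m j) = 2 :=
  orderOf_eq_prime (by rw [pow_two, S_sq]) (S_ne_one hm j)

lemma R_pow (n : ℕ) : (R m (1 : ZMod p)) ^ n = R m (n : ZMod p) := by
  induction n with
  | zero => rw [pow_zero, Nat.cast_zero, R_zero]
  | succ n ih => rw [pow_succ, ih, R_mul_R]; congr 1; push_cast; ring

include hm in
lemma R_eq_one (j : ZMod p) (h : R m j = 1) : j = 0 := by
  classical
  have h1 := congrFun (congrArg (fun f : Equiv.Perm (ZMod p → ZMod m) =>
    f (fun c => if c = 0 then 1 else 0)) h) 0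
  have h2 : (if (0 : ZMod p) - j = 0 then (1 : ZMod m) else 0) = if (0 : ZMod p) = 0 then 1 else 0 := h1
  rw [if_pos rfl] at h2
  by_contra hj
  rw [if_neg] at h2
  · exact one_ne_m hm h2.symm
  · rw [zero_sub, neg_eq_zero]; exact hj

include hm in
lemma order_R : orderOf (R m (1 : ZMod p)) = p := by
  apply Nat.dvd_antisymm
  · rw [orderOf_dvd_iff_pow_eq_one, R_pow, ZMod.natCast_self, R_zero]
  · rw [← ZMod.natCast_eq_zero_iff]
    apply R_eq_one hm
    rw [← R_pow, pow_orderOf_eq_one]

include hp in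
lemma b0_S0 : b m (0 : ZMod p) * S m 0 * b m 0 = S m 0 := by
  have h := S_conj_b (m := m) hp (0 : ZMod p) 0
  rw [sub_zero] at h
  -- h : S0 b0 S0 = b0
  calc b m (0 : ZMod p) * S m 0 * b m 0 = S m 0 * b m 0 * S m 0 * S m 0 * b m 0 := by rw [h]
    _ = S m 0 * (b m 0 * (S m 0 * S m 0) * b m 0) := by simp only [mul_assoc]
    _ = S m 0 := by rw [S_sq, mul_one, b_sq, mul_one]

lemma S1_S0 : S m (1 : ZMod p) * S m 0 = R m 1 := by
  rw [S_mul_S, sub_zero]

include hm in
lemma order_r (i : Fin 3) : orderOf (r p m i) = 2 := by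
  fin_cases i
  · exact order_S hm 1
  · exact order_S hm 0
  · show orderOf (b m 0 * S m 1 * b m 0) = 2
    rw [conj_order _ _ (b_sq 0)]
    exact order_S hm 1

include hp in
lemma comm_r : (r p m 0 * r p m 2) ^ 2 = 1 := by
  rw [r0, r2]
  have h : S m (1 : ZMod p) * b m 0 * S m 1 = b m 1 := by
    rw [S_conj_b hp, sub_zero]
  have e : S m (1 : ZMod p) * (b m 0 * S m 1 * b m 0) = b m 1 * b m 0 := by
    rw [← h]; simp only [mul_assoc]
  rw [e, pow_two]
  calc b m (1 : ZMod p) * b m 0 * (b m 1 * b m 0) = b m 1 * (b m 0 * b m 1) * b m 0 := by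
        simp only [mul_assoc]
    _ = b m 1 * (b m 1 * b m 0) * b m 0 := by rw [b_comm hp]
    _ = (b m 1 * b m 1) * (b m 0 * b m 0) := by simp only [mul_assoc]
    _ = 1 := by rw [b_sq, b_sq, one_mul]

lemma mem_dihedral (x : Equiv.Perm (ZMod p → ZMod m))
    (hx : x ∈ Subgroup.closure {S m (1 : ZMod p), S m 0}) : (∃ j, x = R m j) ∨ ∃ j, x = S m j := by
  induction hx using Subgroup.closure_induction with
  | mem x hx =>
    rcases hx with hx | hx
    · exact Or.inr ⟨1, hx⟩
    · exact Or.inr ⟨0, hx⟩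
  | one => exact Or.inl ⟨0, R_zero.symm⟩
  | mul x y _ _ hx hy =>
    rcases hx with ⟨i, rfl⟩ | ⟨i, rfl⟩
    · rcases hy with ⟨j, rfl⟩ | ⟨j, rfl⟩
      · exact Or.inl ⟨_, R_mul_R i j⟩
      · exact Or.inr ⟨_, R_mul_S i j⟩
    · rcases hy with ⟨j, rfl⟩ | ⟨j, rfl⟩
      · exact Or.inr ⟨_, S_mul_R j i⟩
      · exact Or.inl ⟨_, S_mul_S i j⟩
  | inv x _ hx =>
    rcases hx with ⟨i, rfl⟩ | ⟨i, rfl⟩
    · refine Or.inl ⟨-i, ?_⟩
      rw [inv_eq_iff_mul_eq_one, R_mul_R, add_neg_cancel, R_zero]
    · refine Or.inr ⟨i, ?_⟩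
      rw [inv_eq_iff_mul_eq_one, S_sq]

lemma conj_closure (g x y z : Equiv.Perm (ZMod p → ZMod m)) (hg : g * g = 1)
    (hx : x ∈ Subgroup.closure {y, z}) :
    g * x * g ∈ Subgroup.closure {g * y * g, g * z * g} := by
  induction hx using Subgroup.closure_induction with
  | mem x hx =>
    rcases hx with hx | hx
    · rw [hx]; exact Subgroup.subset_closure (by simp)
    · rw [Set.mem_singleton_iff.1 hx]; exact Subgroup.subset_closure (by simp)
  | one => rw [mul_one, hg]; exact Subgroup.one_mem _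
  | mul x y _ _ hx hy =>
    have e : g * (x * y) * g = (g * x * g) * (g * y * g) := by
      calc g * (x * y) * g = g * x * 1 * y * g := by simp only [mul_assoc, one_mul]
        _ = (g * x * g) * (g * y * g) := by rw [← hg]; simp only [mul_assoc]
    rw [e]
    exact Subgroup.mul_mem _ hx hy
  | inv x _ hx =>
    have e : g * x⁻¹ * g = (g * x * g)⁻¹ := by
      have h : g⁻¹ = g := inv_eq_of_mul_eq_one_left hg
      rw [mul_inv_rev, mul_inv_rev, h, mul_assoc]
    rw [e]
    exact Subgroup.inv_mem _ hx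

include hp hm in
lemma inter_r (x : Equiv.Perm (ZMod p → ZMod m)) (hx1 : x ∈ Subgroup.closure {r p m 0, r p m 1})
    (hx2 : x ∈ Subgroup.closure {r p m 1, r p m 2}) : x ∈ Subgroup.closure {r p m 1} := by
  rw [r0, r1] at hx1
  rw [r1, r2] at hx2
  rw [r1]
  have h1 := mem_dihedral x hx1
  have h2 := conj_closure (b m 0) x _ _ (b_sq 0) hx2
  have e : b m 0 * (b m 0 * S m 1 * b m 0) * b m 0 = S m (1 : ZMod p) := by
    calc b m 0 * (b m 0 * S m 1 * b m 0) * b m 0 =
        (b m 0 * b m 0) * S m (1 : ZMod p) * (b m 0 * b m 0) := by simp only [mul_assoc]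
      _ = S m (1 : ZMod p) := by rw [b_sq, one_mul, mul_one]
  rw [b0_S0 hp, e, Set.pair_comm] at h2
  have h3 := mem_dihedral _ h2
  -- x fixes the origin
  have hx0 : x 0 = 0 := by
    rcases h1 with ⟨j, rfl⟩ | ⟨j, rfl⟩
    · rfl
    · funext c; rw [S_apply]; simp
  set v : ZMod p → ZMod m := b m 0 0 with hv
  have hfix : (b m 0 * x * b m 0 : Equiv.Perm (ZMod p → ZMod m)) v = v := by
    rw [Equiv.Perm.mul_apply, Equiv.Perm.mul_apply, hv]
    have : b m (0 : ZMod p) (b m 0 0) = 0 := by
      rw [← Equiv.Perm.mul_apply, b_sq, Equiv.Perm.one_apply]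
    rw [this, hx0]
  have hvc : ∀ c, v c = if c = 0 then 1 else if c = 0 - 2 then -1 else 0 := by
    intro c
    rw [hv, b_apply]
    simp
  have hv0 : v 0 = 1 := by rw [hvc, if_pos rfl]
  have hv1 : ∀ c, v c = 1 → c = 0 := by
    intro c hc
    rw [hvc] at hc
    split_ifs at hc with k1 k2
    · exact k1
    · exfalso
      apply two_ne_m hm
      have : (2 : ZMod m) = 1 - (-1) := by ring
      rw [this, hc]; ring
    · exact absurd hc.symm (one_ne_m hm)
  have hv2 : ∀ c, v c = -1 → c = 0 - 2 := by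
    intro c hc
    rw [hvc] at hc
    split_ifs at hc with k1 k2
    · exfalso
      apply two_ne_m hm
      have : (2 : ZMod m) = 1 - (-1) := by ring
      rw [this, ← hc]; ring
    · exact k2
    · exfalso
      apply one_ne_m hm
      have : (1 : ZMod m) = -(-1) := by ring
      rw [this, ← hc, neg_zero]
  have hxx : x = b m 0 * (b m 0 * x * b m 0) * b m 0 := by
    calc x = 1 * x * 1 := by rw [one_mul, mul_one]
      _ = b m 0 * (b m 0 * x * b m 0) * b m 0 := by rw [← b_sq (0 : ZMod p)]; simp only [mul_assoc]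
  rcases h3 with ⟨j, hj⟩ | ⟨j, hj⟩
  · rw [hj] at hfix
    have h4 := congrFun hfix 0
    rw [R_apply, hv0] at h4
    have h5 := hv1 _ h4
    have h6 : j = 0 := by
      have : j = 0 - (0 - j) := by ring
      rw [this, h5, sub_zero]
    rw [hxx, hj, h6, R_zero, mul_one, b_sq]
    exact Subgroup.one_mem _
  · rw [hj] at hfix
    have h4 := congrFun hfix 0
    rw [S_apply, hv0] at h4
    have h4' : v (j - 0 - 2) = -1 := by rw [← h4, neg_neg]
    have h5 := hv2 _ h4'
    have h6 : j = 0 := by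
      have : j = (j - 0 - 2) + 2 := by ring
      rw [this, h5]; ring
    rw [hxx, hj, h6, b0_S0 hp]
    exact Subgroup.subset_closure rfl

end

/-! ### The element `b_0 R_1` -/

section
variable (hp : 5 ≤ p)

/-- signs -/
def sg (p m : ℕ) (c : ZMod p) : ZMod m := (if c = 0 then -1 else 1) * (if c = 0 - 2 then -1 else 1)

/-- `u = b_0 R_1` -/
def u (p m : ℕ) : Equiv.Perm (ZMod p → ZMod m) := b m 0 * R m 1

include hp in
lemma u_diff (x y : ZMod p → ZMod m) (c : ZMod p) :
    u p m x c - u p m y c = sg p m c * (x (c - 1) - y (c - 1)) := by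
  unfold u sg
  rw [Equiv.Perm.mul_apply, Equiv.Perm.mul_apply, b_apply, b_apply, R_apply, R_apply]
  by_cases h0 : c = 0
  · have h2 : ¬ (c = 0 - 2) := by
      rw [h0]; intro h
      apply two_ne hp
      have : (2 : ZMod p) = -(0 - 2) := by ring
      rw [this, ← h, neg_zero]
    rw [if_pos h0, if_pos h0, if_pos h0, if_neg h2]
    ring
  · rw [if_neg h0, if_neg h0, if_neg h0]
    split_ifs <;> ring

include hp in
lemma u_pow_diff (k : ℕ) : ∀ (x y : ZMod p → ZMod m) (c : ZMod p),
    ((u p m) ^ k) x c - ((u p m) ^ k) y c =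
      (∏ j ∈ Finset.range k, sg p m (c - (j : ZMod p))) * (x (c - k) - y (c - k)) := by
  induction k with
  | zero => intro x y c; simp
  | succ k ih =>
    intro x y c
    rw [pow_succ, Equiv.Perm.mul_apply, Equiv.Perm.mul_apply, ih, u_diff hp,
      Finset.prod_range_succ]
    push_cast
    rw [show c - (k : ZMod p) - 1 = c - ((k : ZMod p) + 1) by ring]
    ring

include hp in
lemma prod_sg (c : ZMod p) : ∏ j ∈ Finset.range p, sg p m (c - (j : ZMod p)) = 1 := by
  have : NeZero p := ⟨by omega⟩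
  have h1 : ∏ j ∈ Finset.range p, sg p m (c - (j : ZMod p)) = ∏ i : ZMod p, sg p m i := by
    refine Finset.prod_bij' (fun j _ => c - (j : ZMod p)) (fun i _ => (c - i).val) ?_ ?_ ?_ ?_ ?_
    · intro j _; exact Finset.mem_univ _
    · intro i _; rw [Finset.mem_range]; exact ZMod.val_lt _
    · intro j hj
      rw [Finset.mem_range] at hj
      show (c - (c - (j : ZMod p))).val = j
      rw [sub_sub_cancel, ZMod.val_natCast_of_lt hj]
    · intro i _
      show c - (((c - i).val : ℕ) : ZMod p) = i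
      rw [ZMod.natCast_zmod_val, sub_sub_cancel]
    · intro j _; rfl
  rw [h1]
  unfold sg
  rw [Finset.prod_mul_distrib, Finset.prod_ite_eq' Finset.univ (0 : ZMod p) (fun _ => (-1 : ZMod m)),
    Finset.prod_ite_eq' Finset.univ (0 - 2 : ZMod p) (fun _ => (-1 : ZMod m)),
    if_pos (Finset.mem_univ _), if_pos (Finset.mem_univ _)]
  ring

include hp in
lemma u_pow_p (x : ZMod p → ZMod m) (c : ZMod p) :
    ((u p m) ^ p) x c = x c + ((u p m) ^ p) 0 c := by
  have h := u_pow_diff (m := m) hp p x 0 c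
  rw [prod_sg hp, ZMod.natCast_self, sub_zero, one_mul] at h
  have h0 : (0 : ZMod p → ZMod m) c = 0 := rfl
  rw [h0, sub_zero] at h
  rw [← h]; ring

include hp in
lemma u_pow_pn (n : ℕ) (x : ZMod p → ZMod m) (c : ZMod p) :
    (((u p m) ^ p) ^ n) x c = x c + n * ((u p m) ^ p) 0 c := by
  induction n with
  | zero => simp
  | succ n ih =>
    rw [pow_succ', Equiv.Perm.mul_apply, u_pow_p hp, ih]
    push_cast
    ring

include hp in
lemma u_pow_pm : (u p m) ^ (p * m) = 1 := by
  ext x c
  rw [pow_mul, u_pow_pn hp, ZMod.natCast_self, zero_mul, add_zero, Equiv.Perm.one_apply]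

/-- the generated group -/
abbrev Γ (p m : ℕ) : Subgroup (Equiv.Perm (ZMod p → ZMod m)) := Subgroup.closure (Set.range (r p m))

lemma mem_Γ (i : Fin 3) : r p m i ∈ Γ p m := Subgroup.subset_closure ⟨i, rfl⟩

lemma bb (x : Equiv.Perm (ZMod p → ZMod m)) : b m 0 * (b m 0 * x * b m 0) * b m 0 = x := by
  calc b m 0 * (b m 0 * x * b m 0) * b m 0 = (b m 0 * b m 0) * x * (b m 0 * b m 0) := by
        simp only [mul_assoc]
    _ = x := by rw [b_sq, one_mul, mul_one]

include hp in
lemma b0_r (i : Fin 3) : b m 0 * r p m i * b m 0 = r p m (Fin.rev i) := by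
  fin_cases i
  · rfl
  · exact b0_S0 hp
  · exact bb _

include hp in
lemma normalize (x : Equiv.Perm (ZMod p → ZMod m)) (hx : x ∈ Γ p m) :
    b m 0 * x * b m 0 ∈ Γ p m := by
  induction hx using Subgroup.closure_induction with
  | mem x hx =>
    obtain ⟨i, rfl⟩ := hx
    rw [b0_r hp]
    exact mem_Γ _
  | one => rw [mul_one, b_sq]; exact Subgroup.one_mem _
  | mul x y _ _ hx hy =>
    have e : b m 0 * (x * y) * b m 0 = (b m 0 * x * b m 0) * (b m 0 * y * b m 0) := by
      calc b m 0 * (x * y) * b m 0 = b m 0 * x * 1 * y * b m 0 := by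
            simp only [mul_assoc, one_mul]
        _ = (b m 0 * x * b m 0) * (b m 0 * y * b m 0) := by
            rw [← b_sq (0 : ZMod p)]; simp only [mul_assoc]
    rw [e]
    exact Subgroup.mul_mem _ hx hy
  | inv x _ hx =>
    have e : b m 0 * x⁻¹ * b m 0 = (b m 0 * x * b m 0)⁻¹ := by
      have h : (b m (0 : ZMod p))⁻¹ = b m 0 := inv_eq_of_mul_eq_one_left (b_sq 0)
      rw [mul_inv_rev, mul_inv_rev, h, mul_assoc]
    rw [e]
    exact Subgroup.inv_mem _ hx

lemma R1_mem : R m (1 : ZMod p) ∈ Γ p m := by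
  rw [← S1_S0]
  exact Subgroup.mul_mem _ (mem_Γ 0) (mem_Γ 1)

include hp in
lemma parity (n : ℕ) : (b m (0 : ZMod p)) ^ n * (u p m) ^ n ∈ Γ p m := by
  induction n with
  | zero => rw [pow_zero, pow_zero, one_mul]; exact Subgroup.one_mem _
  | succ n ih =>
    have e : (b m (0 : ZMod p)) ^ (n + 1) * (u p m) ^ (n + 1) =
        (b m 0 * ((b m (0 : ZMod p)) ^ n * (u p m) ^ n) * b m 0) * R m 1 := by
      rw [pow_succ', pow_succ (u p m) n]
      have : u p m = b m 0 * R m 1 := rfl
      nth_rewrite 2 [this]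
      simp only [mul_assoc]
    rw [e]
    exact Subgroup.mul_mem _ (normalize hp _ ih) R1_mem

include hp in
lemma b0_mem (hpo : Odd p) (hmo : Odd m) : b m (0 : ZMod p) ∈ Γ p m := by
  have h := parity (m := m) hp (p * m)
  rw [u_pow_pm hp, mul_one] at h
  obtain ⟨k, hk⟩ := hpo.mul hmo
  rw [hk, pow_add, pow_mul, pow_two, b_sq, one_pow, one_mul, pow_one] at h
  exact h

/-! ### The word distinguishing the polyhedra -/

/-- the word -/
def word {G : Type} [Group G] (ρ : Fin 3 → G) : G := (ρ 2 * ρ 1 * ρ 2) * (ρ 0 * ρ 1 * ρ 0)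

include hp in
lemma word_r : word (r p m) = b m 0 * b m 2 := by
  unfold word
  rw [r0, r1, r2]
  have h1 : S m (1 : ZMod p) * S m 0 * S m 1 = S m 2 := by
    rw [S_mul_S, R_mul_S]; congr 1; ring
  have h2 : b m 0 * S m 1 * b m 0 * S m 0 * (b m 0 * S m 1 * b m 0) =
      b m 0 * S m (2 : ZMod p) * b m 0 := by
    calc b m 0 * S m 1 * b m 0 * S m 0 * (b m 0 * S m 1 * b m 0) =
        b m 0 * S m 1 * (b m 0 * S m 0 * b m 0) * S m 1 * b m 0 := by simp only [mul_assoc]
      _ = b m 0 * (S m 1 * S m 0 * S m 1) * b m 0 := by rw [b0_S0 hp]; simp only [mul_assoc]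
      _ = b m 0 * S m (2 : ZMod p) * b m 0 := by rw [h1]
  rw [h1, h2]
  calc b m 0 * S m 2 * b m 0 * S m 2 = b m 0 * (S m 2 * b m 0 * S m (2 : ZMod p)) := by
        simp only [mul_assoc]
    _ = b m 0 * b m 2 := by rw [S_conj_b hp, sub_zero]

include hp in
lemma bb2_zero (x : ZMod p → ZMod m) : (b m 0 * b m 2 : Equiv.Perm (ZMod p → ZMod m)) x 0 = x 0 + 2 := by
  rw [Equiv.Perm.mul_apply, b_apply, b_apply, if_pos rfl, if_neg, if_pos]
  · ring
  · ring
  · intro h; exact two_ne hp h.symm

include hp in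
lemma bb2_pow_zero (n : ℕ) (x : ZMod p → ZMod m) :
    ((b m 0 * b m 2 : Equiv.Perm (ZMod p → ZMod m)) ^ n) x 0 = x 0 + 2 * n := by
  induction n with
  | zero => simp
  | succ n ih =>
    rw [pow_succ', Equiv.Perm.mul_apply, bb2_zero hp, ih]
    push_cast
    ring

include hp in
lemma bb2_sq (x : ZMod p → ZMod m) (c : ZMod p) :
    ((b m 0 * b m 2 : Equiv.Perm (ZMod p → ZMod m)) ^ 2) x c = if c = 0 then x c + 4 else x c := by
  by_cases h0 : c = 0
  · rw [if_pos h0, h0, bb2_pow_zero hp]
    push_cast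
    ring
  · rw [if_neg h0, pow_two]
    simp only [Equiv.Perm.mul_apply, b_apply]
    have e2 : ¬ (c = 2 - 2) := by
      intro h; apply h0; rw [h]; ring
    by_cases h2 : c = 2
    · have h3 : ¬ (c = 0 - 2) := by
        rw [h2]; intro h
        apply four_ne hp
        have : (4 : ZMod p) = 2 - (0 - 2) := by ring
        rw [this, ← h]; ring
      simp only [if_neg h0, if_neg h3, if_pos h2]
      ring
    · by_cases h3 : c = 0 - 2
      · simp only [if_neg h0, if_pos h3, if_neg h2, if_neg e2]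
        ring
      · simp only [if_neg h0, if_neg h3, if_neg h2, if_neg e2]

include hp in
lemma bb2_sq_pow (n : ℕ) (x : ZMod p → ZMod m) (c : ZMod p) :
    (((b m 0 * b m 2 : Equiv.Perm (ZMod p → ZMod m)) ^ 2) ^ n) x c =
      if c = 0 then x c + 4 * n else x c := by
  induction n with
  | zero => split_ifs <;> simp
  | succ n ih =>
    rw [pow_succ', Equiv.Perm.mul_apply, bb2_sq hp, ih]
    split_ifs
    · push_cast; ring
    · rfl

include hp in
lemma word_pow : (word (r p m)) ^ (2 * m) = 1 := by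
  rw [word_r hp, pow_mul]
  ext x c
  rw [bb2_sq_pow hp, ZMod.natCast_self, mul_zero, add_zero, Equiv.Perm.one_apply]
  split_ifs <;> rfl

include hp in
lemma word_pow_eq_one (n : ℕ) (h : (word (r p m)) ^ n = 1) : m ∣ 2 * n := by
  rw [word_r hp] at h
  have h1 := bb2_pow_zero (m := m) hp n 0
  rw [h, Equiv.Perm.one_apply] at h1
  have h2 : ((2 * n : ℕ) : ZMod m) = 0 := by
    push_cast
    have h0 : (0 : ZMod p → ZMod m) 0 = 0 := rfl
    rw [h0, zero_add] at h1
    exact h1.symm
  exact (ZMod.natCast_eq_zero_iff _ _).1 h2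

end

/-! ### The family -/

/-- the polyhedron `P_m` -/
def poly (p m : ℕ) (hp : 5 ≤ p) (hm : 3 ≤ m) : RegularPolyhedron where
  G := Γ p m
  ρ := gen (r p m)
  isStringCGroup := isStringC_of (r p m) (order_r hm) (comm_r hp) (inter_r hp hm)

lemma poly_type (p m : ℕ) (hp : 5 ≤ p) (hm : 3 ≤ m) : HasType (poly p m hp hm).ρ p p := by
  constructor
  · show orderOf (gen (r p m) 0 * gen (r p m) 1) = p
    rw [← Subgroup.orderOf_coe]
    show orderOf (S m (1 : ZMod p) * S m 0) = p
    rw [S1_S0, order_R hm]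
  · show orderOf (gen (r p m) 1 * gen (r p m) 2) = p
    rw [← Subgroup.orderOf_coe]
    show orderOf (S m (0 : ZMod p) * (b m 0 * S m 1 * b m 0)) = p
    have e : S m (0 : ZMod p) * (b m 0 * S m 1 * b m 0) = b m 0 * (R m 1)⁻¹ * b m 0 := by
      have h1 : S m (0 : ZMod p) * b m 0 = b m 0 * S m 0 := by
        calc S m (0 : ZMod p) * b m 0 = (b m 0 * b m 0) * (S m (0 : ZMod p) * b m 0) := by
              rw [b_sq, one_mul]
          _ = b m 0 * (b m 0 * S m (0 : ZMod p) * b m 0) := by simp only [mul_assoc]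
          _ = b m 0 * S m 0 := by rw [b0_S0 hp]
      have h2 : (R m (1 : ZMod p))⁻¹ = S m 0 * S m 1 := by
        rw [inv_eq_iff_mul_eq_one, S_mul_S, R_mul_R]
        rw [show (1 : ZMod p) + (0 - 1) = 0 by ring, R_zero]
      rw [h2]
      calc S m (0 : ZMod p) * (b m 0 * S m 1 * b m 0) = (S m (0 : ZMod p) * b m 0) * (S m 1 * b m 0) := by
            simp only [mul_assoc]
        _ = b m 0 * (S m 0 * S m 1) * b m 0 := by rw [h1]; simp only [mul_assoc]
    rw [e, conj_order _ _ (b_sq 0), orderOf_inv, order_R hm]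

lemma poly_selfDual (p m : ℕ) (hp : 5 ≤ p) (hm : 3 ≤ m) (hpo : Odd p) (hmo : Odd m) :
    InternallySelfDual (poly p m hp hm).ρ := by
  refine ⟨⟨b m 0, b0_mem hp hpo hmo⟩, fun i => ?_⟩
  apply Subtype.ext
  show (b m 0)⁻¹ * r p m i * b m 0 = r p m (Fin.rev i)
  rw [inv_eq_of_mul_eq_one_left (b_sq 0)]
  exact b0_r hp i

lemma iso_dvd (p m n : ℕ) (hp : 5 ≤ p) (hm : 3 ≤ m) (hn : 3 ≤ n)
    (h : Isomorphic (poly p m hp hm).ρ (poly p n hp hn).ρ) : n ∣ 4 * m := by
  obtain ⟨e, he⟩ := h
  have h1 : (word (poly p m hp hm).ρ) ^ (2 * m) = 1 := by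
    apply Subtype.ext
    exact word_pow hp
  have h2 : e (word (poly p m hp hm).ρ) = word (poly p n hp hn).ρ := by
    unfold word
    simp only [map_mul, he]
  have h3 : (word (poly p n hp hn).ρ) ^ (2 * m) = 1 := by
    rw [← h2, ← map_pow, h1, map_one]
  have h4 : (word (r p n)) ^ (2 * m) = 1 := congrArg Subtype.val h3
  have h5 := word_pow_eq_one hp _ h4
  rw [← mul_assoc] at h5
  exact h5

lemma iso_symm {G H : Type} [Group G] [Group H] (ρ : Fin 3 → G) (σ : Fin 3 → H)
    (h : Isomorphic ρ σ) : Isomorphic σ ρ := by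
  obtain ⟨e, he⟩ := h
  refine ⟨e.symm, fun i => ?_⟩
  rw [← he i, MulEquiv.symm_apply_apply]

/-- For every odd `p ≥ 5` there is an infinite family of pairwise non-isomorphic (finite) internally
self-dual regular polyhedra of type `{p,p}`. -/
theorem result : ∀ p : ℕ, Odd p → 5 ≤ p → ∃ P : ℕ → RegularPolyhedron,
    (∀ n, HasType (P n).ρ p p ∧ InternallySelfDual (P n).ρ ∧ Finite (P n).G) ∧
    ∀ n n', Isomorphic (P n).ρ (P n').ρ → n = n' := by
  intro p hpo hp
  refine ⟨fun n => poly p (2 * n + 3) hp (by omega), fun n => ⟨poly_type _ _ _ _,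
    poly_selfDual _ _ _ _ hpo ⟨n + 1, by ring⟩, ?_⟩, ?_⟩
  · have : NeZero p := ⟨by omega⟩
    have : NeZero (2 * n + 3) := ⟨by omega⟩
    show Finite (Γ p (2 * n + 3))
    infer_instance
  · intro n n' h
    have h1 := iso_dvd p (2 * n + 3) (2 * n' + 3) hp (by omega) (by omega) h
    have h2 := iso_dvd p (2 * n' + 3) (2 * n + 3) hp (by omega) (by omega) (iso_symm _ _ h)
    have c1 : Nat.Coprime (2 * n' + 3) 4 := by
      have : Odd (2 * n' + 3) := ⟨n' + 1, by ring⟩
      have h3 : Nat.Coprime (2 * n' + 3) (2 ^ 2) := Nat.Coprime.pow_right 2 this.coprime_two_right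
      exact h3
    have c2 : Nat.Coprime (2 * n + 3) 4 := by
      have : Odd (2 * n + 3) := ⟨n + 1, by ring⟩
      have h3 : Nat.Coprime (2 * n + 3) (2 ^ 2) := Nat.Coprime.pow_right 2 this.coprime_two_right
      exact h3
    have h3 := Nat.dvd_antisymm (c1.dvd_of_dvd_mul_left h1) (c2.dvd_of_dvd_mul_left h2)
    omega

end Pool.Agent.Results.MP_7f6698_co.InfiniteFamily
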